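import Pool.Agent.Work.MP_0df73a_co.Tableau

/-!
Semistandard tableaux and Gelfand-Tsetlin arrays (`G i v` = number of entries `< v` in row `i`).
-/

set_option autoImplicit false

namespace Pool.Agent.Work.MP_0df73a_co.Four

open Finset

/-- The row lengths of the diagram `D` are `L`. -/
def Shape (D : YoungDiagram) (L : ℕ → ℕ) : Prop := ∀ i j, (i, j) ∈ D ↔ j < L i

/-- Gelfand-Tsetlin arrays: `G i v` is the number of entries `< v` in row `i`. -/
structure IsGT (L : ℕ → ℕ) (R n : ℕ) (mu : ℕ → ℕ) (G : ℕ → ℕ → ℕ) : Prop where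
  zero : ∀ i, G i 0 = 0
  mono : ∀ i v, G i v ≤ G i (v + 1)
  top : ∀ i v, n ≤ v → G i v = L i
  col : ∀ i v, G (i + 1) (v + 1) ≤ G i v
  cont : ∀ v, ∑ i ∈ range R, G i v = ∑ u ∈ range v, mu u

section

variable {D : YoungDiagram} {L : ℕ → ℕ} {R n : ℕ} {mu : ℕ → ℕ}

/-- Number of entries `< v` in row `i`. -/
def cnt (L : ℕ → ℕ) (T : SemistandardYoungTableau D) (i v : ℕ) : ℕ :=
  ((range (L i)).filter fun j => T i j < v).card

theorem card_fiber (hD : Shape D L) (hR : ∀ i, R ≤ i → L i = 0) (T : SemistandardYoungTableau D)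
    (v : ℕ) :
    Nat.card {c : ℕ × ℕ // c ∈ D ∧ T c.1 c.2 = v} =
      ∑ i ∈ range R, ((range (L i)).filter fun j => T i j = v).card := by
  have hset : {c : ℕ × ℕ | c ∈ D ∧ T c.1 c.2 = v} =
      (((range R).biUnion fun i =>
        ((range (L i)).filter fun j => T i j = v).image fun j => (i, j)) : Finset (ℕ × ℕ)) := by
    ext ⟨i, j⟩
    simp only [Set.mem_ofPred_eq, Finset.coe_biUnion, Finset.coe_image, Set.mem_iUnion, Set.mem_image,
      Finset.mem_coe, Finset.mem_filter, Finset.mem_range, Prod.mk.injEq]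
    rw [hD i j]
    constructor
    · rintro ⟨h, h2⟩
      refine ⟨i, ?_, j, ⟨h, h2⟩, rfl, rfl⟩
      by_contra hc
      rw [hR i (by omega)] at h
      omega
    · rintro ⟨i', _, j', ⟨h, h2⟩, rfl, rfl⟩
      exact ⟨h, h2⟩
  have h1 : Nat.card {c : ℕ × ℕ // c ∈ D ∧ T c.1 c.2 = v} =
      Set.ncard {c : ℕ × ℕ | c ∈ D ∧ T c.1 c.2 = v} := rfl
  rw [h1, hset, Set.ncard_coe_finset, Finset.card_biUnion]
  · refine Finset.sum_congr rfl fun i _ => ?_
    exact Finset.card_image_of_injective _ (fun a b h => (Prod.mk.inj h).2)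
  · intro i _ i' _ hne
    rw [Function.onFun, Finset.disjoint_left]
    intro x hx hy
    rw [Finset.mem_image] at hx hy
    obtain ⟨a, -, rfl⟩ := hx
    obtain ⟨c, -, h⟩ := hy
    exact hne (Prod.mk.inj h).1.symm

theorem sum_fiber (hD : Shape D L) (hR : ∀ i, R ≤ i → L i = 0) (T : SemistandardYoungTableau D)
    (v : ℕ) :
    ∑ u ∈ range v, Nat.card {c : ℕ × ℕ // c ∈ D ∧ T c.1 c.2 = u} = ∑ i ∈ range R, cnt L T i v := by
  rw [Finset.sum_congr rfl fun u _ => card_fiber hD hR T u, Finset.sum_comm]
  refine Finset.sum_congr rfl fun i _ => ?_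
  exact count_lt (L i) (fun j => T i j) v

theorem row_mono (hD : Shape D L) (T : SemistandardYoungTableau D) (i : ℕ) :
    ∀ j1 j2, j1 < j2 → j2 < L i → T i j1 ≤ T i j2 :=
  fun _ _ h h2 => T.row_weak h ((hD _ _).mpr h2)

theorem isGT_cnt (hD : Shape D L) (hR : ∀ i, R ≤ i → L i = 0) (hmu : ∀ v, n ≤ v → mu v = 0)
    (T : SemistandardYoungTableau D) (hT : T ∈ Tab D mu) : IsGT L R n mu (cnt L T) where
  zero := fun i => by
    unfold cnt
    simp
  mono := fun i v => by
    unfold cnt
    refine Finset.card_le_card fun j hj => ?_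
    rw [Finset.mem_filter] at hj ⊢
    exact ⟨hj.1, by omega⟩
  top := fun i v hv => by
    unfold cnt
    rw [Finset.filter_true_of_mem, Finset.card_range]
    intro j hj
    rw [Finset.mem_range] at hj
    by_contra hc
    have h1 := hT (T i j)
    rw [card_fiber hD hR, hmu _ (by omega)] at h1
    have hi : i ∈ range R := by
      rw [Finset.mem_range]
      by_contra h
      rw [hR i (by omega)] at hj
      omega
    have h2 := Finset.sum_eq_zero_iff.mp h1 i hi
    rw [Finset.card_eq_zero] at h2
    have h3 : j ∈ ((range (L i)).filter fun j' => T i j' = T i j) :=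
      Finset.mem_filter.mpr ⟨Finset.mem_range.mpr hj, rfl⟩
    rw [h2] at h3
    exact absurd h3 (Finset.notMem_empty _)
  col := fun i v => by
    unfold cnt
    refine Finset.card_le_card fun j hj => ?_
    rw [Finset.mem_filter, Finset.mem_range] at hj ⊢
    have hcell : (i + 1, j) ∈ D := (hD _ _).mpr hj.1
    have h1 := T.col_strict (i1 := i) (i2 := i + 1) (j := j) (by omega) hcell
    have h2 : (i, j) ∈ D := D.up_left_mem (by omega) le_rfl hcell
    exact ⟨(hD _ _).mp h2, by omega⟩
  cont := fun v => by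
    rw [← sum_fiber hD hR T v]
    exact Finset.sum_congr rfl fun u _ => hT u

theorem tab_ext (hD : Shape D L) (T T' : SemistandardYoungTableau D)
    (h : ∀ i v, cnt L T i v = cnt L T' i v) : T = T' := by
  ext i j
  by_cases hij : (i, j) ∈ D
  · have hj := (hD i j).mp hij
    refine eq_of_forall_lt_iff ?_ |>.symm
    intro v
    have a1 := lt_iff_lt_count (L i) (fun j => T i j) (row_mono hD T i) (v + 1) j hj
    have a2 := lt_iff_lt_count (L i) (fun j => T' i j) (row_mono hD T' i) (v + 1) j hj
    have h1 : ((range (L i)).filter fun j => T i j < v + 1).card =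
      ((range (L i)).filter fun j => T' i j < v + 1).card := h i (v + 1)
    rw [h1] at a1
    constructor
    · intro hh
      by_contra hc
      have := a1.mp (by omega)
      have := a2.mpr this
      omega
    · intro hh
      by_contra hc
      have := a2.mp (by omega)
      have := a1.mpr this
      omega
  · rw [T.zeros hij, T'.zeros hij]

theorem IsGT.monotone {G : ℕ → ℕ → ℕ} (hG : IsGT L R n mu G) (i : ℕ) : Monotone (G i) :=
  monotone_nat_of_le_succ (hG.mono i)

theorem IsGT.le_top {G : ℕ → ℕ → ℕ} (hG : IsGT L R n mu G) (i v : ℕ) : G i v ≤ L i := by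
  rw [← hG.top i (v + n) (by omega)]
  exact hG.monotone i (by omega)

theorem IsGT.diag {G : ℕ → ℕ → ℕ} (hG : IsGT L R n mu G) (i d v : ℕ) : G (i + d) (v + d) ≤ G i v := by
  induction d with
  | zero => exact le_rfl
  | succ d ih => exact (hG.col (i + d) (v + d)).trans ih

theorem exists_tab (hD : Shape D L) (hR : ∀ i, R ≤ i → L i = 0) {G : ℕ → ℕ → ℕ}
    (hG : IsGT L R n mu G) : ∃ T ∈ Tab D mu, ∀ i v, cnt L T i v = G i v := by
  have r : ∀ i j, j < L i → ∀ v, rowf (G i) j < v ↔ j < G i v := fun i j hj v =>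
    rowf_lt (G i) (hG.monotone i) (hG.zero i) n j (by rw [hG.top i n le_rfl]; exact hj) v
  have hcol : ∀ i1 i2 j, i1 < i2 → j < L i2 → j < L i1 ∧ rowf (G i1) j < rowf (G i2) j := by
    intro i1 i2 j hi hj
    have h1 : j < G i2 (rowf (G i2) j + 1) := (r i2 j hj _).mp (by omega)
    obtain ⟨d, rfl⟩ : ∃ d, i2 = i1 + d := ⟨i2 - i1, by omega⟩
    set w := rowf (G (i1 + d)) j with hw
    have hd : d ≤ w + 1 := by
      by_contra hc
      have h2 : G (i1 + d) (w + 1) ≤ G (i1 + d) (0 + d) := hG.monotone _ (by omega)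
      have h3 := hG.diag i1 d 0
      rw [hG.zero] at h3
      omega
    have h2 : G (i1 + d) (w + 1) ≤ G i1 (w + 1 - d) := by
      have := hG.diag i1 d (w + 1 - d)
      rwa [Nat.sub_add_cancel hd] at this
    have h3 : G i1 (w + 1 - d) ≤ G i1 w := hG.monotone _ (by omega)
    have h4 : j < G i1 w := by omega
    have h5 : j < L i1 := lt_of_lt_of_le h4 (hG.le_top i1 w)
    exact ⟨h5, (r i1 j h5 w).mpr h4⟩
  let T : SemistandardYoungTableau D :=
    { entry := fun i j => if j < L i then rowf (G i) j else 0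
      row_weak' := by
        intro i j1 j2 hj hcell
        have hj2 := (hD i j2).mp hcell
        rw [if_pos hj2, if_pos (by omega)]
        by_contra hc
        have h1 := (r i j2 hj2 (rowf (G i) j2 + 1)).mp (by omega)
        have h2 := (r i j1 (by omega) (rowf (G i) j2 + 1)).mpr (by omega)
        omega
      col_strict' := by
        intro i1 i2 j hi hcell
        have hj2 := (hD i2 j).mp hcell
        have := hcol i1 i2 j hi hj2
        rw [if_pos this.1, if_pos hj2]
        exact this.2
      zeros' := by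
        intro i j hij
        rw [hD i j] at hij
        rw [if_neg hij] }
  have hTe : ∀ i j, j < L i → T i j = rowf (G i) j := by
    intro i j hj
    change (if j < L i then rowf (G i) j else 0) = _
    rw [if_pos hj]
  have hcnt : ∀ i v, cnt L T i v = G i v := by
    intro i v
    unfold cnt
    have e : ((range (L i)).filter fun j => T i j < v) = range (G i v) := by
      ext j
      rw [Finset.mem_filter, Finset.mem_range, Finset.mem_range]
      constructor
      · rintro ⟨h1, h2⟩
        rw [hTe i j h1] at h2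
        exact (r i j h1 v).mp h2
      · intro h
        have h1 : j < L i := lt_of_lt_of_le h (hG.le_top i v)
        exact ⟨h1, by rw [hTe i j h1]; exact (r i j h1 v).mpr h⟩
    rw [e, Finset.card_range]
  refine ⟨T, fun v => ?_, hcnt⟩
  have h1 := sum_fiber hD hR T v
  have h2 := sum_fiber hD hR T (v + 1)
  rw [Finset.sum_range_succ] at h2
  rw [Finset.sum_congr rfl fun i _ => hcnt i v, hG.cont v] at h1
  rw [Finset.sum_congr rfl fun i _ => hcnt i (v + 1), hG.cont (v + 1), Finset.sum_range_succ, h1] at h2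
  omega

end

end Pool.Agent.Work.MP_0df73a_co.Four
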