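import Pool.Agent.Work.MP_0df73a_co.Four.Patt

/-!
The number of Gelfand-Tsetlin patterns with four letters as a sum over one variable, and its
stretched version as a polynomial with nonnegative coefficients.
-/

set_option autoImplicit false

namespace Pool.Agent.Work.MP_0df73a_co.Four

open Finset

/-! ### The fibres -/

/-- left end of the range of `a` -/
def al (A1 u1 b : ℤ) : ℤ := max A1 (u1 - b)
/-- right end of the range of `a` -/
def be (A2 u2 b : ℤ) : ℤ := min A2 (u2 - b)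
/-- the number of `d` is `1 + a + ph` -/
def ph (m t s b : ℤ) : ℤ := min 0 (b - t) - max m (max b (s - b))

theorem al_lin (A1 u1 j k r : ℤ) (h0 : 0 ≤ r) (h1 : r ≤ k) :
    al (k * A1) (k * u1) (k * j + r) = (k - r) * al A1 u1 j + r * al A1 u1 (j + 1) := by
  unfold al
  rcases le_or_gt (u1 - j) A1 with h | h
  · rw [max_eq_left h, max_eq_left (by linarith : u1 - (j + 1) ≤ A1), max_eq_left (by nlinarith)]
    ring
  · rw [max_eq_right h.le, max_eq_right (by linarith : A1 ≤ u1 - (j + 1)), max_eq_right (by nlinarith)]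
    ring

theorem be_lin (A2 u2 j k r : ℤ) (h0 : 0 ≤ r) (h1 : r ≤ k) :
    be (k * A2) (k * u2) (k * j + r) = (k - r) * be A2 u2 j + r * be A2 u2 (j + 1) := by
  unfold be
  rcases le_or_gt A2 (u2 - (j + 1)) with h | h
  · rw [min_eq_left (by linarith : A2 ≤ u2 - j), min_eq_left h, min_eq_left (by nlinarith)]
    ring
  · rw [min_eq_right (by linarith : u2 - j ≤ A2), min_eq_right h.le, min_eq_right (by nlinarith)]
    ring

theorem ph_lin (m t s j k r : ℤ) (hm : s - m ≤ m) (h0 : 0 ≤ r) (h1 : r ≤ k) :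
    ph (k * m) (k * t) (k * s) (k * j + r) = (k - r) * ph m t s j + r * ph m t s (j + 1) := by
  have e1 : min 0 (k * j + r - k * t) = (k - r) * min 0 (j - t) + r * min 0 (j + 1 - t) := by
    rcases le_or_gt t j with h | h
    · rw [min_eq_left (by linarith : (0 : ℤ) ≤ j - t), min_eq_left (by linarith : (0 : ℤ) ≤ j + 1 - t),
        min_eq_left (by nlinarith)]
      ring
    · rw [min_eq_right (by linarith : j - t ≤ (0 : ℤ)), min_eq_right (by linarith : j + 1 - t ≤ (0 : ℤ)),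
        min_eq_right (by nlinarith)]
      ring
  have e2 : max (k * m) (max (k * j + r) (k * s - (k * j + r))) =
      (k - r) * max m (max j (s - j)) + r * max m (max (j + 1) (s - (j + 1))) := by
    rcases le_or_gt m j with h | h
    · rw [max_eq_left (by linarith : s - j ≤ j), max_eq_right h,
        max_eq_left (by linarith : s - (j + 1) ≤ j + 1), max_eq_right (by linarith : m ≤ j + 1),
        max_eq_left (by nlinarith : k * s - (k * j + r) ≤ k * j + r), max_eq_right (by nlinarith)]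
      ring
    · rcases le_or_gt (s - m) j with h' | h'
      · rw [max_eq_left (by rw [max_le_iff]; constructor <;> linarith : max j (s - j) ≤ m),
          max_eq_left (by rw [max_le_iff]; constructor <;> linarith :
            max (j + 1) (s - (j + 1)) ≤ m),
          max_eq_left (by rw [max_le_iff]; constructor <;> nlinarith)]
        ring
      · rw [max_eq_right (by linarith : j ≤ s - j), max_eq_right (by linarith : m ≤ s - j),
          max_eq_right (by linarith : j + 1 ≤ s - (j + 1)),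
          max_eq_right (by linarith : m ≤ s - (j + 1)),
          max_eq_right (by nlinarith : k * j + r ≤ k * s - (k * j + r)),
          max_eq_right (by nlinarith)]
        ring
  unfold ph
  rw [e1, e2]
  ring

/-- one factor of the fibre sum -/
def LL (A1 A2 u1 u2 b : ℤ) : ℚ := ((be A2 u2 b - al A1 u1 b : ℤ) : ℚ)
/-- the other factor of the fibre sum -/
def MM (A1 A2 u1 u2 m t s b : ℤ) : ℚ :=
  ((ph m t s b : ℤ) : ℚ) + ((al A1 u1 b + be A2 u2 b : ℤ) : ℚ) / 2

theorem LL_lin (A1 A2 u1 u2 j k r : ℤ) (h0 : 0 ≤ r) (h1 : r ≤ k) :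
    LL (k * A1) (k * A2) (k * u1) (k * u2) (k * j + r) =
      ((k : ℚ) - r) * LL A1 A2 u1 u2 j + r * LL A1 A2 u1 u2 (j + 1) := by
  unfold LL
  rw [al_lin _ _ _ _ _ h0 h1, be_lin _ _ _ _ _ h0 h1]
  push_cast
  ring

theorem MM_lin (A1 A2 u1 u2 m t s j k r : ℤ) (hm : s - m ≤ m) (h0 : 0 ≤ r) (h1 : r ≤ k) :
    MM (k * A1) (k * A2) (k * u1) (k * u2) (k * m) (k * t) (k * s) (k * j + r) =
      ((k : ℚ) - r) * MM A1 A2 u1 u2 m t s j + r * MM A1 A2 u1 u2 m t s (j + 1) := by
  unfold MM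
  rw [al_lin _ _ _ _ _ h0 h1, be_lin _ _ _ _ _ h0 h1, ph_lin _ _ _ _ _ _ hm h0 h1]
  push_cast
  ring

theorem LL_diff (A1 A2 u1 u2 j : ℤ) :
    |LL A1 A2 u1 u2 (j + 1) - LL A1 A2 u1 u2 j| ≤ 1 := by
  unfold LL
  have h1 : be A2 u2 (j + 1) - al A1 u1 (j + 1) - (be A2 u2 j - al A1 u1 j) ≤ 1 := by
    unfold al be
    omega
  have h2 : -1 ≤ be A2 u2 (j + 1) - al A1 u1 (j + 1) - (be A2 u2 j - al A1 u1 j) := by
    unfold al be
    omega
  rw [abs_le]
  constructor
  · have : ((-1 : ℤ) : ℚ) ≤ _ := Int.cast_le.mpr h2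
    push_cast at this ⊢
    linarith
  · have : _ ≤ ((1 : ℤ) : ℚ) := Int.cast_le.mpr h1
    push_cast at this ⊢
    linarith

theorem MM_diff (A1 A2 u1 u2 m t s j : ℤ) :
    |MM A1 A2 u1 u2 m t s (j + 1) - MM A1 A2 u1 u2 m t s j| ≤ 2 := by
  unfold MM
  have h1 : 2 * (ph m t s (j + 1) - ph m t s j) + (al A1 u1 (j + 1) + be A2 u2 (j + 1) -
      (al A1 u1 j + be A2 u2 j)) ≤ 4 := by
    unfold al be ph
    omega
  have h2 : -4 ≤ 2 * (ph m t s (j + 1) - ph m t s j) + (al A1 u1 (j + 1) + be A2 u2 (j + 1) -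
      (al A1 u1 j + be A2 u2 j)) := by
    unfold al be ph
    omega
  rw [abs_le]
  constructor
  · have : ((-4 : ℤ) : ℚ) ≤ _ := Int.cast_le.mpr h2
    push_cast at this ⊢
    linarith
  · have : _ ≤ ((4 : ℤ) : ℚ) := Int.cast_le.mpr h1
    push_cast at this ⊢
    linarith

/-! ### Sums -/

theorem sum_quad (A B C D : ℚ) (n : ℕ) :
    ∑ r ∈ range n, (A + r * B) * (C + r * D) =
      n * A * C + (A * D + B * C) * (n * (n - 1) / 2) + B * D * ((n - 1) * n * (2 * n - 1) / 6) := by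
  induction n with
  | zero => simp
  | succ n ih =>
    rw [Finset.sum_range_succ, ih]
    push_cast
    ring

/-- trapezoid form of the sum over one unit interval -/
theorem sum_unit (L0 L1 M0 M1 : ℚ) (k : ℕ) :
    ∑ r ∈ range k, (1 + (((k : ℚ) - r) * L0 + r * L1)) * (1 + (((k : ℚ) - r) * M0 + r * M1)) =
      (k * (1 + (L1 - L0) * (M1 - M0) / 6) + k ^ 2 * ((L0 + M0 + L1 + M1) / 2) +
        k ^ 3 * ((L0 * M0 + L1 * M1) / 3 + (L0 * M1 + L1 * M0) / 6)) +
      ((1 + k * L0) * (1 + k * M0) / 2 - (1 + k * L1) * (1 + k * M1) / 2) := by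
  have e : ∀ r : ℕ, (1 + (((k : ℚ) - r) * L0 + r * L1)) * (1 + (((k : ℚ) - r) * M0 + r * M1)) =
      ((1 + k * L0) + r * (L1 - L0)) * ((1 + k * M0) + r * (M1 - M0)) := by
    intro r
    ring
  rw [Finset.sum_congr rfl fun r _ => e r, sum_quad]
  ring

theorem sum_blocks (f : ℕ → ℚ) (k n : ℕ) :
    ∑ i ∈ range (k * n), f i = ∑ j ∈ range n, ∑ r ∈ range k, f (k * j + r) := by
  induction n with
  | zero => simp
  | succ n ih =>
    rw [Nat.mul_succ, Finset.sum_range_add, ih, Finset.sum_range_succ]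

/-- The sum over a lattice interval as a polynomial in trapezoid form. -/
theorem sum_stretch (f : ℤ → ℚ) (L M : ℤ → ℚ) (k n : ℕ) (b1 : ℤ)
    (hf : ∀ j : ℤ, ∀ r : ℕ, r ≤ k → f (k * j + r) =
      (1 + (((k : ℚ) - r) * L j + r * L (j + 1))) * (1 + (((k : ℚ) - r) * M j + r * M (j + 1)))) :
    ∑ b ∈ Icc (k * b1 : ℤ) (k * (b1 + n)), f b =
      (∑ i ∈ range n, (k * (1 + (L (b1 + i + 1) - L (b1 + i)) * (M (b1 + i + 1) - M (b1 + i)) / 6) +
        k ^ 2 * ((L (b1 + i) + M (b1 + i) + L (b1 + i + 1) + M (b1 + i + 1)) / 2) +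
        k ^ 3 * ((L (b1 + i) * M (b1 + i) + L (b1 + i + 1) * M (b1 + i + 1)) / 3 +
          (L (b1 + i) * M (b1 + i + 1) + L (b1 + i + 1) * M (b1 + i)) / 6))) +
      ((1 + k * L b1) * (1 + k * M b1) / 2 +
        (1 + k * L (b1 + n)) * (1 + k * M (b1 + n)) / 2) := by
  have h1 : ∑ b ∈ Icc (k * b1 : ℤ) (k * (b1 + n)), f b =
      ∑ i ∈ range (k * n + 1), f (k * b1 + i) := by
    symm
    refine Finset.sum_bij' (fun i _ => (k * b1 + i : ℤ)) (fun b _ => (b - k * b1).toNat) ?_ ?_ ?_ ?_ ?_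
    · intro i hi
      rw [Finset.mem_range] at hi
      rw [Finset.mem_Icc]
      have : (i : ℤ) ≤ k * n := by exact_mod_cast Nat.lt_succ_iff.mp hi
      constructor <;> nlinarith
    · intro b hb
      rw [Finset.mem_Icc] at hb
      rw [Finset.mem_range]
      have h2 : b - k * b1 ≤ ((k * n : ℕ) : ℤ) := by
        push_cast
        nlinarith [hb.2]
      omega
    · intro i hi
      simp
    · intro b hb
      rw [Finset.mem_Icc] at hb
      rw [Int.toNat_of_nonneg (by linarith [hb.1])]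
      ring
    · intro i _
      rfl
  rw [h1, Finset.sum_range_succ, sum_blocks]
  have h2 : ∀ j ∈ range n, ∑ r ∈ range k, f (k * b1 + ((k * j + r : ℕ) : ℤ)) =
      (k * (1 + (L (b1 + j + 1) - L (b1 + j)) * (M (b1 + j + 1) - M (b1 + j)) / 6) +
        k ^ 2 * ((L (b1 + j) + M (b1 + j) + L (b1 + j + 1) + M (b1 + j + 1)) / 2) +
        k ^ 3 * ((L (b1 + j) * M (b1 + j) + L (b1 + j + 1) * M (b1 + j + 1)) / 3 +
          (L (b1 + j) * M (b1 + j + 1) + L (b1 + j + 1) * M (b1 + j)) / 6)) +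
      ((1 + k * L (b1 + j)) * (1 + k * M (b1 + j)) / 2 -
        (1 + k * L (b1 + j + 1)) * (1 + k * M (b1 + j + 1)) / 2) := by
    intro j _
    rw [← sum_unit]
    refine Finset.sum_congr rfl fun r hr => ?_
    rw [Finset.mem_range] at hr
    rw [← hf (b1 + j) r hr.le]
    congr 1
    push_cast
    ring
  rw [Finset.sum_congr rfl h2, Finset.sum_add_distrib]
  have h3 : ∑ j ∈ range n, ((1 + k * L (b1 + j)) * (1 + k * M (b1 + j)) / 2 -
        (1 + k * L (b1 + j + 1)) * (1 + k * M (b1 + j + 1)) / 2) =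
      (1 + k * L b1) * (1 + k * M b1) / 2 - (1 + k * L (b1 + n)) * (1 + k * M (b1 + n)) / 2 := by
    have := Finset.sum_range_sub' (fun j : ℕ => (1 + k * L (b1 + j)) * (1 + k * M (b1 + j)) / 2) n
    simp only [Nat.cast_add, Nat.cast_one, Nat.cast_zero, add_zero, ← add_assoc] at this
    exact this
  have h4 : f (k * b1 + ((k * n : ℕ) : ℤ)) = (1 + k * L (b1 + n)) * (1 + k * M (b1 + n)) := by
    have := hf (b1 + n) 0 (Nat.zero_le _)
    simp only [Nat.cast_zero, add_zero, sub_zero, zero_mul] at this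
    rw [← this]
    congr 1
    push_cast
    ring
  rw [h3, h4]
  ring

end Pool.Agent.Work.MP_0df73a_co.Four
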