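import Pool.Agent.Work.MP_0df73a_co.Four.Count

/-!
The fibres of the set of patterns over the two entries `b, a`.
-/

set_option autoImplicit false

namespace Pool.Agent.Work.MP_0df73a_co.Four

open Finset

section

variable (l1 l2 l3 l4 T s m1 : ℤ)

/-- the larger of the two first contents -/
def mm : ℤ := max m1 (s - m1)
/-- lower bound for `a` -/
def A1 : ℤ := max l2 (max (mm s m1) (T - s))
/-- upper bound for `c` -/
def C2 : ℤ := min l3 (min (s - mm s m1) (T - s))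

theorem al_le_iff (b a : ℤ) :
    al (A1 l2 T s m1) (T - C2 l3 T s m1) b ≤ a ↔
      (l2 ≤ a ∧ (m1 ≤ a ∧ s - m1 ≤ a) ∧ T - s ≤ a) ∧
        (T - a - b ≤ l3 ∧ (m1 ≤ s - T + a + b ∧ T - a - b ≤ m1) ∧ s ≤ a + b) := by
  have h1 : T - C2 l3 T s m1 - b ≤ a ↔ T - a - b ≤ C2 l3 T s m1 := by
    constructor <;> intro h <;> linarith
  have h2 : T - a - b ≤ s - mm s m1 ↔ mm s m1 ≤ s - T + a + b := by
    constructor <;> intro h <;> linarith
  have h3 : s - m1 ≤ s - T + a + b ↔ T - a - b ≤ m1 := by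
    constructor <;> intro h <;> linarith
  have h4 : T - a - b ≤ T - s ↔ s ≤ a + b := by
    constructor <;> intro h <;> linarith
  unfold al
  rw [max_le_iff, h1]
  unfold A1 C2
  rw [max_le_iff, max_le_iff, le_min_iff, le_min_iff, h2, h4]
  unfold mm
  rw [max_le_iff, max_le_iff, h3]

theorem al_ph_nonneg (b : ℤ) (h3 : l3 ≤ b) (h2 : b ≤ l2) :
    0 ≤ al (A1 l2 T s m1) (T - C2 l3 T s m1) b + ph (mm s m1) (T - s) s b := by
  obtain ⟨⟨g1, ⟨g2, g3⟩, g4⟩, g5, ⟨g6, g7⟩, g8⟩ :=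
    (al_le_iff l2 l3 T s m1 b (al (A1 l2 T s m1) (T - C2 l3 T s m1) b)).mp le_rfl
  set a := al (A1 l2 T s m1) (T - C2 l3 T s m1) b
  unfold ph mm
  have e1 : max (max m1 (s - m1)) (max b (s - b)) ≤ a :=
    max_le (max_le g2 g3) (max_le (by linarith) (by linarith))
  have e2 : max (max m1 (s - m1)) (max b (s - b)) ≤ a + (b - (T - s)) :=
    max_le (max_le (by linarith) (by linarith)) (max_le (by linarith) (by linarith))
  have e3 : max (max m1 (s - m1)) (max b (s - b)) - a ≤ min 0 (b - (T - s)) :=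
    le_min (by linarith) (by linarith)
  linarith

theorem mem_Patt_iff (b a d : ℤ) :
    (b, a, d) ∈ Patt l1 l2 l3 l4 T s m1 ↔
      (l3 ≤ b ∧ b ≤ l2) ∧
      (al (A1 l2 T s m1) (T - C2 l3 T s m1) b ≤ a ∧ a ≤ be l1 (T - l4) b) ∧
      (max m1 (max b (max (s - m1) (s - b))) ≤ d ∧ d ≤ min a (s - T + a + b)) := by
  rw [al_le_iff]
  unfold be
  rw [max_le_iff, max_le_iff, max_le_iff, le_min_iff, le_min_iff]
  simp only [Patt, Set.mem_ofPred_eq]
  constructor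
  · rintro ⟨h1, h2, h3, h4, h5, h6, h7, h8, h9, h10, h11, h12⟩
    refine ⟨⟨h3, h4⟩, ⟨⟨⟨h1, ⟨?_, ?_⟩, ?_⟩, h6, ⟨?_, ?_⟩, ?_⟩, h2, ?_⟩, ⟨h7, h10, ?_, ?_⟩, h11, ?_⟩ <;>
      linarith
  · rintro ⟨⟨h3, h4⟩, ⟨⟨⟨h1, -, -⟩, h6, -, -⟩, h2, h5⟩, ⟨h7, h10, h8, h9⟩, h11, h12⟩
    refine ⟨h1, h2, h3, h4, ?_, h6, h7, ?_, ?_, h10, h11, ?_⟩ <;> linarith

theorem card_fib (b a : ℤ) (hb : l3 ≤ b ∧ b ≤ l2)
    (ha : al (A1 l2 T s m1) (T - C2 l3 T s m1) b ≤ a) :
    (((Icc (max m1 (max b (max (s - m1) (s - b)))) (min a (s - T + a + b))).card : ℕ) : ℤ) =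
      1 + a + ph (mm s m1) (T - s) s b := by
  rw [Int.card_Icc]
  have e1 : max m1 (max b (max (s - m1) (s - b))) = max (mm s m1) (max b (s - b)) := by
    unfold mm
    rw [max_left_comm b, max_assoc]
  have e2 : min a (s - T + a + b) = a + min 0 (b - (T - s)) := by
    rw [← min_add_add_left, add_zero]
    congr 1
    ring
  have e3 := al_ph_nonneg l2 l3 T s m1 b hb.1 hb.2
  have e4 : min a (s - T + a + b) + 1 - max m1 (max b (max (s - m1) (s - b))) =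
      1 + a + ph (mm s m1) (T - s) s b := by
    rw [e1, e2]
    unfold ph
    ring
  rw [e4, Int.toNat_of_nonneg (by linarith)]

theorem card_Patt :
    ((Nat.card (Patt l1 l2 l3 l4 T s m1) : ℕ) : ℤ) =
      ∑ b ∈ Icc l3 l2, ∑ a ∈ Icc (al (A1 l2 T s m1) (T - C2 l3 T s m1) b) (be l1 (T - l4) b),
        (1 + a + ph (mm s m1) (T - s) s b) := by
  have h1 : Patt l1 l2 l3 l4 T s m1 =
      (((Icc l3 l2).sigma fun b =>
        (Icc (al (A1 l2 T s m1) (T - C2 l3 T s m1) b) (be l1 (T - l4) b)).sigma fun a =>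
          Icc (max m1 (max b (max (s - m1) (s - b)))) (min a (s - T + a + b))).image
        fun x => (x.1, x.2.1, x.2.2) : Finset (ℤ × ℤ × ℤ)) := by
    ext ⟨b, a, d⟩
    rw [mem_Patt_iff]
    simp only [Finset.coe_image, Set.mem_image, Finset.mem_coe, Finset.mem_sigma, Finset.mem_Icc,
      Prod.mk.injEq]
    constructor
    · rintro ⟨h1, h2, h3⟩
      exact ⟨⟨b, a, d⟩, ⟨h1, h2, h3⟩, rfl, rfl, rfl⟩
    · rintro ⟨⟨b', a', d'⟩, ⟨h1, h2, h3⟩, rfl, rfl, rfl⟩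
      exact ⟨h1, h2, h3⟩
  have h2 : Nat.card (Patt l1 l2 l3 l4 T s m1) = Set.ncard (Patt l1 l2 l3 l4 T s m1) := rfl
  rw [h2, h1, Set.ncard_coe_finset, Finset.card_image_of_injective, Finset.card_sigma]
  · push_cast
    refine Finset.sum_congr rfl fun b hb => ?_
    rw [Finset.mem_Icc] at hb
    rw [Finset.card_sigma]
    push_cast
    refine Finset.sum_congr rfl fun a ha => ?_
    rw [Finset.mem_Icc] at ha
    exact card_fib l2 l3 T s m1 b a hb ha.1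
  · rintro ⟨b, a, d⟩ ⟨b', a', d'⟩ h
    simp only [Prod.mk.injEq] at h
    obtain ⟨rfl, rfl, rfl⟩ := h
    rfl

end

theorem mm_scale (s m1 k : ℤ) (hk : 0 ≤ k) : mm (k * s) (k * m1) = k * mm s m1 := by
  unfold mm
  rw [← mul_sub, mul_max_of_nonneg _ _ hk]

theorem A1_scale (l2 T s m1 k : ℤ) (hk : 0 ≤ k) :
    A1 (k * l2) (k * T) (k * s) (k * m1) = k * A1 l2 T s m1 := by
  unfold A1
  rw [mm_scale _ _ _ hk, ← mul_sub, mul_max_of_nonneg _ _ hk, mul_max_of_nonneg _ _ hk]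

theorem C2_scale (l3 T s m1 k : ℤ) (hk : 0 ≤ k) :
    C2 (k * l3) (k * T) (k * s) (k * m1) = k * C2 l3 T s m1 := by
  unfold C2
  rw [mm_scale _ _ _ hk, ← mul_sub, ← mul_sub, mul_min_of_nonneg _ _ hk, mul_min_of_nonneg _ _ hk]

end Pool.Agent.Work.MP_0df73a_co.Four
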