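import Pool.Agent.Work.MP_0df73a_co.Four.Fib

/-!
Stretched Kostka numbers with four letters: polynomial with nonnegative coefficients.
-/

set_option autoImplicit false

namespace Pool.Agent.Work.MP_0df73a_co.Four

open Finset Polynomial

/-- nonnegative coefficients -/
def NN (P : ℚ[X]) : Prop := ∀ n, 0 ≤ P.coeff n

theorem NN.add {P Q : ℚ[X]} (hP : NN P) (hQ : NN Q) : NN (P + Q) := fun n => by
  rw [coeff_add]
  exact add_nonneg (hP n) (hQ n)

theorem NN.mul {P Q : ℚ[X]} (hP : NN P) (hQ : NN Q) : NN (P * Q) := fun n => by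
  rw [coeff_mul]
  exact Finset.sum_nonneg fun x _ => mul_nonneg (hP _) (hQ _)

theorem NN.sum {ι : Type*} (s : Finset ι) (f : ι → ℚ[X]) (h : ∀ i ∈ s, NN (f i)) :
    NN (∑ i ∈ s, f i) := fun n => by
  rw [finsetSum_coeff]
  exact Finset.sum_nonneg fun i hi => h i hi n

theorem NN_C {c : ℚ} (hc : 0 ≤ c) : NN (C c) := fun n => by
  rw [coeff_C]
  split_ifs
  · exact hc
  · exact le_rfl

theorem NN_X_pow (k : ℕ) : NN (X ^ k : ℚ[X]) := fun n => by
  rw [coeff_X_pow]
  split_ifs
  · exact zero_le_one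
  · exact le_rfl

/-- polynomial of one unit interval -/
noncomputable def TP (L0 L1 M0 M1 : ℚ) : ℚ[X] :=
  C (1 + (L1 - L0) * (M1 - M0) / 6) * X ^ 1 + C ((L0 + M0 + L1 + M1) / 2) * X ^ 2 +
    C ((L0 * M0 + L1 * M1) / 3 + (L0 * M1 + L1 * M0) / 6) * X ^ 3

/-- polynomial of one end -/
noncomputable def EP (L M : ℚ) : ℚ[X] := C (1 / 2) * ((C 1 + C L * X ^ 1) * (C 1 + C M * X ^ 1))

theorem NN_TP {L0 L1 M0 M1 : ℚ} (h1 : 0 ≤ L0) (h2 : 0 ≤ L1) (h3 : 0 ≤ M0) (h4 : 0 ≤ M1)
    (h5 : |L1 - L0| ≤ 1) (h6 : |M1 - M0| ≤ 2) : NN (TP L0 L1 M0 M1) := by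
  unfold TP
  have h7 : -2 ≤ (L1 - L0) * (M1 - M0) := by
    have : |(L1 - L0) * (M1 - M0)| ≤ 1 * 2 := by
      rw [abs_mul]
      exact mul_le_mul h5 h6 (abs_nonneg _) zero_le_one
    have := (abs_le.mp this).1
    linarith
  refine NN.add (NN.add (NN.mul (NN_C ?_) (NN_X_pow 1)) (NN.mul (NN_C ?_) (NN_X_pow 2)))
    (NN.mul (NN_C ?_) (NN_X_pow 3))
  · linarith
  · positivity
  · positivity

theorem NN_EP {L M : ℚ} (h1 : 0 ≤ L) (h3 : 0 ≤ M) : NN (EP L M) := by
  unfold EP
  exact NN.mul (NN_C (by norm_num)) (NN.mul (NN.add (NN_C zero_le_one) (NN.mul (NN_C h1) (NN_X_pow 1)))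
    (NN.add (NN_C zero_le_one) (NN.mul (NN_C h3) (NN_X_pow 1))))

/-! ### counting -/

theorem sum_arith (al be : ℤ) (c : ℤ) (h : al ≤ be + 1) :
    ((∑ a ∈ Icc al be, (1 + a + c) : ℤ) : ℚ) =
      (1 + ((be - al : ℤ) : ℚ)) * (1 + ((c : ℚ) + ((al + be : ℤ) : ℚ) / 2)) := by
  obtain ⟨n, hn⟩ : ∃ n : ℕ, be = al + n - 1 := ⟨(be + 1 - al).toNat, by omega⟩
  subst hn
  clear h
  induction n with
  | zero =>
    rw [Finset.Icc_eq_empty (by simp)]
    push_cast
    simp
  | succ n ih =>
    have : Icc al (al + ((n + 1 : ℕ) : ℤ) - 1) = insert (al + n) (Icc al (al + n - 1)) := by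
      ext x
      simp only [Finset.mem_Icc, Finset.mem_insert]
      push_cast
      omega
    rw [this, Finset.sum_insert (by simp), Int.cast_add, ih]
    push_cast
    ring

/-- Stretched count of the patterns: a polynomial with nonnegative coefficients. -/
theorem exists_poly (l1 l2 l3 l4 T s m1 : ℤ) (hl3 : l3 ≤ l2) :
    ∃ P : ℚ[X], NN P ∧ ∀ k : ℕ, 1 ≤ k →
      ((Nat.card (Patt (k * l1) (k * l2) (k * l3) (k * l4) (k * T) (k * s) (k * m1)) : ℕ) : ℚ) =
        P.eval (k : ℚ) := by
  set a1 := A1 l2 T s m1 with ha1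
  set u1 := T - C2 l3 T s m1 with hu1
  set u2 := T - l4 with hu2
  set m := mm s m1 with hm
  set t := T - s with ht
  have hcard : ∀ k : ℕ, ((Nat.card (Patt (k * l1) (k * l2) (k * l3) (k * l4) (k * T) (k * s)
      (k * m1)) : ℕ) : ℤ) =
      ∑ b ∈ Icc (k * l3 : ℤ) (k * l2), ∑ a ∈ Icc (al (k * a1) (k * u1) b) (be (k * l1) (k * u2) b),
        (1 + a + ph (k * m) (k * t) (k * s) b) := by
    intro k
    have hk : (0 : ℤ) ≤ k := Int.natCast_nonneg k
    rw [card_Patt, A1_scale _ _ _ _ _ hk, C2_scale _ _ _ _ _ hk, mm_scale _ _ _ hk]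
    simp only [← mul_sub]
    rfl
  -- the range of `b`
  set b1 := max l3 (u1 - l1) with hb1
  set b2 := min l2 (u2 - a1) with hb2
  by_cases hne : a1 ≤ l1 ∧ u1 ≤ u2 ∧ b1 ≤ b2
  · obtain ⟨h1, h2, h3⟩ := hne
    obtain ⟨n, hn⟩ : ∃ n : ℕ, b2 = b1 + n := ⟨(b2 - b1).toNat, by omega⟩
    set L : ℤ → ℚ := fun j => LL a1 l1 u1 u2 j with hL
    set M : ℤ → ℚ := fun j => MM a1 l1 u1 u2 m t s j with hM
    refine ⟨(∑ i ∈ range n, TP (L (b1 + i)) (L (b1 + i + 1)) (M (b1 + i)) (M (b1 + i + 1))) +
      (EP (L b1) (M b1) + EP (L (b1 + n)) (M (b1 + n))), ?_, ?_⟩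
    · have hLn : ∀ j, b1 ≤ j → j ≤ b2 → 0 ≤ L j := by
        intro j hj hj'
        simp only [hL, LL]
        rw [Int.cast_nonneg_iff]
        have h7 : al a1 u1 j ≤ be l1 u2 j := by
          refine max_le (le_min h1 ?_) (le_min ?_ (by linarith))
          · linarith [le_trans hj' (min_le_right _ _)]
          · linarith [le_trans (le_max_right _ _) hj]
        linarith
      have hMn : ∀ j, b1 ≤ j → j ≤ b2 → 0 ≤ M j := by
        intro j hj hj'
        simp only [hM, MM]
        have h4 : 0 ≤ 2 * ph m t s j + (al a1 u1 j + be l1 u2 j) := by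
          have h6 : 0 ≤ al a1 u1 j + ph m t s j :=
            al_ph_nonneg l2 l3 T s m1 j (le_trans (le_max_left _ _) hj)
              (le_trans hj' (min_le_left _ _))
          have h7 : al a1 u1 j ≤ be l1 u2 j := by
            refine max_le (le_min h1 ?_) (le_min ?_ (by linarith))
            · linarith [le_trans hj' (min_le_right _ _)]
            · linarith [le_trans (le_max_right _ _) hj]
          linarith
        have h5 : (0 : ℚ) ≤ ((2 * ph m t s j + (al a1 u1 j + be l1 u2 j) : ℤ) : ℚ) := by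
          exact_mod_cast h4
        push_cast at h5 ⊢
        linarith
      refine NN.add (NN.sum _ _ fun i hi => ?_) (NN.add (NN_EP ?_ ?_) (NN_EP ?_ ?_))
      · rw [Finset.mem_range] at hi
        exact NN_TP (hLn _ (by omega) (by omega)) (hLn _ (by omega) (by omega))
          (hMn _ (by omega) (by omega)) (hMn _ (by omega) (by omega))
          (LL_diff a1 l1 u1 u2 (b1 + i)) (MM_diff a1 l1 u1 u2 m t s (b1 + i))
      · exact hLn _ le_rfl (by omega)
      · exact hMn _ le_rfl (by omega)
      · exact hLn _ (by omega) (by omega)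
      · exact hMn _ (by omega) (by omega)
    · intro k hk
      have hk0 : (0 : ℤ) < k := by exact_mod_cast hk
      have e1 : ((Nat.card (Patt (k * l1) (k * l2) (k * l3) (k * l4) (k * T) (k * s)
          (k * m1)) : ℕ) : ℚ) =
          ∑ b ∈ Icc (k * b1 : ℤ) (k * (b1 + n)),
            (1 + LL (k * a1) (k * l1) (k * u1) (k * u2) b) *
              (1 + MM (k * a1) (k * l1) (k * u1) (k * u2) (k * m) (k * t) (k * s) b) := by
        have e2 : ((Nat.card (Patt (k * l1) (k * l2) (k * l3) (k * l4) (k * T) (k * s)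
            (k * m1)) : ℕ) : ℚ) = ((_ : ℤ) : ℚ) := congrArg (Int.cast : ℤ → ℚ) (hcard k)
        rw [e2, Int.cast_sum]
        rw [← Finset.sum_subset (s₁ := Icc (k * b1 : ℤ) (k * (b1 + n)))
          (s₂ := Icc (k * l3 : ℤ) (k * l2))]
        · refine Finset.sum_congr rfl fun b hb => ?_
          rw [Finset.mem_Icc, ← hn] at hb
          rw [sum_arith]
          · rfl
          · have q1 : k * b1 ≤ b := hb.1
            have q2 : b ≤ k * b2 := hb.2
            have q3 : k * (u1 - l1) ≤ b := le_trans (mul_le_mul_of_nonneg_left (le_max_right _ _) hk0.le) q1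
            have q4 : b ≤ k * (u2 - a1) := le_trans q2 (mul_le_mul_of_nonneg_left (min_le_right _ _) hk0.le)
            have q5 : k * a1 ≤ k * l1 := mul_le_mul_of_nonneg_left h1 hk0.le
            have q6 : k * u1 ≤ k * u2 := mul_le_mul_of_nonneg_left h2 hk0.le
            rw [mul_sub] at q3 q4
            have h7 : al (k * a1) (k * u1) b ≤ be (k * l1) (k * u2) b :=
              max_le (le_min q5 (by linarith)) (le_min (by linarith) (by linarith))
            linarith
        · intro b hb
          rw [Finset.mem_Icc, ← hn] at hb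
          rw [Finset.mem_Icc]
          exact ⟨le_trans (mul_le_mul_of_nonneg_left (le_max_left _ _) hk0.le) hb.1,
            le_trans hb.2 (mul_le_mul_of_nonneg_left (min_le_left _ _) hk0.le)⟩
        · intro b hb hb'
          rw [Finset.mem_Icc] at hb
          rw [Finset.mem_Icc, ← hn] at hb'
          rw [Int.cast_eq_zero]
          rw [Finset.Icc_eq_empty, Finset.sum_empty]
          intro hle
          apply hb'
          have q0 : max (k * a1) (k * u1 - b) ≤ min (k * l1) (k * u2 - b) := hle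
          have q3 : k * (u1 - l1) ≤ b := by
            have := (le_max_right _ _).trans (q0.trans (min_le_left _ _))
            rw [mul_sub]
            linarith
          have q4 : b ≤ k * (u2 - a1) := by
            have := (le_max_left _ _).trans (q0.trans (min_le_right _ _))
            rw [mul_sub]
            linarith
          rw [hb1, hb2, mul_max_of_nonneg _ _ hk0.le, mul_min_of_nonneg _ _ hk0.le]
          exact ⟨max_le hb.1 q3, le_min hb.2 q4⟩
      rw [e1, sum_stretch (fun b => (1 + LL (k * a1) (k * l1) (k * u1) (k * u2) b) *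
              (1 + MM (k * a1) (k * l1) (k * u1) (k * u2) (k * m) (k * t) (k * s) b)) L M k n b1]
      · simp only [eval_add, eval_finsetSum, TP, EP, eval_mul, eval_C, eval_pow, eval_X, pow_one]
        congr 1
        · refine Finset.sum_congr rfl fun i _ => ?_
          ring
        · ring
      · intro j r hr
        have hr' : (r : ℤ) ≤ k := by exact_mod_cast hr
        have hms : s - m ≤ m := by
          simp only [hm, mm]
          omega
        rw [LL_lin _ _ _ _ _ _ _ (Int.natCast_nonneg r) hr',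
          MM_lin _ _ _ _ _ _ _ _ _ _ hms (Int.natCast_nonneg r) hr']
        simp only [hL, hM, Int.cast_natCast]
  · refine ⟨0, fun n => by simp, fun k hk => ?_⟩
    have hk0 : (0 : ℤ) < k := by exact_mod_cast hk
    rw [eval_zero]
    have h0 : ((Nat.card (Patt (k * l1) (k * l2) (k * l3) (k * l4) (k * T) (k * s)
      (k * m1)) : ℕ) : ℤ) = 0 := by
      rw [hcard k]
      refine Finset.sum_eq_zero fun b hb => ?_
      rw [Finset.Icc_eq_empty, Finset.sum_empty]
      intro hle
      rw [Finset.mem_Icc] at hb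
      apply hne
      have q0 : max (k * a1) (k * u1 - b) ≤ min (k * l1) (k * u2 - b) := hle
      have q1 : k * a1 ≤ k * l1 := (le_max_left _ _).trans (q0.trans (min_le_left _ _))
      have q2' : k * u1 - b ≤ k * u2 - b := (le_max_right _ _).trans (q0.trans (min_le_right _ _))
      have q2 : k * u1 ≤ k * u2 := by linarith
      have q3' : k * u1 - b ≤ k * l1 := (le_max_right _ _).trans (q0.trans (min_le_left _ _))
      have q4' : k * a1 ≤ k * u2 - b := (le_max_left _ _).trans (q0.trans (min_le_right _ _))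
      have q3 : k * (u1 - l1) ≤ k * l2 := by
        rw [mul_sub]
        linarith [hb.2]
      have q4 : k * l3 ≤ k * (u2 - a1) := by
        rw [mul_sub]
        linarith [hb.1]
      have q5 : k * (u1 - l1) ≤ k * (u2 - a1) := by
        rw [mul_sub, mul_sub]
        linarith
      refine ⟨le_of_mul_le_mul_left q1 hk0, le_of_mul_le_mul_left q2 hk0, ?_⟩
      exact max_le (le_min hl3 (le_of_mul_le_mul_left q4 hk0))
        (le_min (le_of_mul_le_mul_left q3 hk0) (le_of_mul_le_mul_left q5 hk0))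
    exact_mod_cast h0

end Pool.Agent.Work.MP_0df73a_co.Four
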