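import Pool.Agent.Work.MP_0df73a_co.Four.Bij

/-!
Tableaux with at most four letters are triples of integers.
-/

set_option autoImplicit false
set_option linter.unusedSimpArgs false

namespace Pool.Agent.Work.MP_0df73a_co.Four

open Finset

/-- The integer points of the Gelfand-Tsetlin polytope for four letters, with third row
`(a, b, T - a - b)`, second row `(d, s - d)` and first row `m1`. -/
def Patt (l1 l2 l3 l4 T s m1 : ℤ) : Set (ℤ × ℤ × ℤ) :=
  {x | l2 ≤ x.2.1 ∧ x.2.1 ≤ l1 ∧ l3 ≤ x.1 ∧ x.1 ≤ l2 ∧ l4 ≤ T - x.2.1 - x.1 ∧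
    T - x.2.1 - x.1 ≤ l3 ∧ m1 ≤ x.2.2 ∧ s - x.2.2 ≤ m1 ∧ s - x.2.2 ≤ x.1 ∧ x.1 ≤ x.2.2 ∧
    x.2.2 ≤ x.2.1 ∧ T - x.2.1 - x.1 ≤ s - x.2.2}

/-- The Gelfand-Tsetlin array with given entries. -/
def arr (L : ℕ → ℕ) (m a b c d e : ℕ) : ℕ → ℕ → ℕ := fun i v =>
  match v, i with
  | 0, _ => 0
  | 1, 0 => m
  | 1, _ + 1 => 0
  | 2, 0 => d
  | 2, 1 => e
  | 2, _ + 2 => 0
  | 3, 0 => a
  | 3, 1 => b
  | 3, 2 => c
  | 3, _ + 3 => 0
  | _ + 4, i => L i

section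

variable {D : YoungDiagram} {L : ℕ → ℕ} {mu : ℕ → ℕ}

theorem gt_small {G : ℕ → ℕ → ℕ} (hG : IsGT L 4 4 mu G) (i v : ℕ) (h : v ≤ i) : G i v = 0 := by
  obtain ⟨d, rfl⟩ : ∃ d, i = d + v := ⟨i - v, by omega⟩
  have := hG.diag d v 0
  rw [hG.zero, zero_add] at this
  omega

theorem gt_sum {G : ℕ → ℕ → ℕ} (hG : IsGT L 4 4 mu G) :
    G 0 1 = mu 0 ∧ G 0 2 + G 1 2 = mu 0 + mu 1 ∧ G 0 3 + G 1 3 + G 2 3 = mu 0 + mu 1 + mu 2 ∧
      L 0 + L 1 + L 2 + L 3 = mu 0 + mu 1 + mu 2 + mu 3 := by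
  have h1 := hG.cont 1
  have h2 := hG.cont 2
  have h3 := hG.cont 3
  have h4 := hG.cont 4
  simp only [Finset.sum_range_succ, Finset.sum_range_zero, zero_add] at h1 h2 h3 h4
  rw [gt_small hG 1 1 le_rfl, gt_small hG 2 1 (by omega), gt_small hG 3 1 (by omega)] at h1
  rw [gt_small hG 2 2 le_rfl, gt_small hG 3 2 (by omega)] at h2
  rw [gt_small hG 3 3 le_rfl] at h3
  rw [hG.top 0 4 le_rfl, hG.top 1 4 le_rfl, hG.top 2 4 le_rfl, hG.top 3 4 le_rfl] at h4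
  exact ⟨by omega, by omega, by omega, by omega⟩

theorem gt_patt {G : ℕ → ℕ → ℕ} (hG : IsGT L 4 4 mu G) :
    (((G 1 3 : ℕ) : ℤ), ((G 0 3 : ℕ) : ℤ), ((G 0 2 : ℕ) : ℤ)) ∈
      Patt (L 0) (L 1) (L 2) (L 3) (mu 0 + mu 1 + mu 2) (mu 0 + mu 1) (mu 0) := by
  obtain ⟨e1, e2, e3, -⟩ := gt_sum hG
  have a1 := hG.mono 0 1
  have a2 := hG.mono 0 2
  have a3 := hG.mono 0 3
  have b2 := hG.mono 1 2
  have b3 := hG.mono 1 3
  have c3 := hG.mono 2 3
  have d1 := hG.col 0 1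
  have d2 := hG.col 0 2
  have d3 := hG.col 0 3
  have f2 := hG.col 1 2
  have f3 := hG.col 1 3
  have g3 := hG.col 2 3
  norm_num at a1 a2 a3 b2 b3 c3 d1 d2 d3 f2 f3 g3
  rw [hG.top 0 4 le_rfl] at a3
  rw [hG.top 1 4 le_rfl] at b3 d3
  rw [hG.top 2 4 le_rfl] at c3 f3
  rw [hG.top 3 4 le_rfl] at g3
  simp only [Patt, Set.mem_ofPred_eq]
  omega

theorem gt_ext {G G' : ℕ → ℕ → ℕ} (hG : IsGT L 4 4 mu G)
    (hG' : IsGT L 4 4 mu G') (h1 : G 1 3 = G' 1 3)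
    (h2 : G 0 3 = G' 0 3) (h3 : G 0 2 = G' 0 2) (i v : ℕ) : G i v = G' i v := by
  obtain ⟨e1, e2, e3, -⟩ := gt_sum hG
  obtain ⟨e1', e2', e3', -⟩ := gt_sum hG'
  rcases Nat.lt_or_ge v 4 with hv | hv
  · rcases Nat.lt_or_ge i v with hi | hi
    · interval_cases v <;> interval_cases i <;> omega
    · rw [gt_small hG i v hi, gt_small hG' i v hi]
  · rw [hG.top i v hv, hG'.top i v hv]

theorem arr_isGT (hmu : ∀ v, 4 ≤ v → mu v = 0) (hR : ∀ i, 4 ≤ i → L i = 0)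
    (hL : ∀ i, L (i + 1) ≤ L i)
    (hsum : L 0 + L 1 + L 2 + L 3 = mu 0 + mu 1 + mu 2 + mu 3) {a b c d e : ℕ}
    (h1 : L 1 ≤ a) (h2 : a ≤ L 0) (h3 : L 2 ≤ b) (h4 : b ≤ L 1) (h5 : L 3 ≤ c) (h6 : c ≤ L 2)
    (h7 : mu 0 ≤ d) (h8 : e ≤ mu 0) (h9 : e ≤ b) (h10 : b ≤ d) (h11 : d ≤ a) (h12 : c ≤ e)
    (h13 : a + b + c = mu 0 + mu 1 + mu 2) (h14 : d + e = mu 0 + mu 1) :
    IsGT L 4 4 mu (arr L (mu 0) a b c d e) where
  zero := fun i => rfl
  mono := fun i v => by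
    rcases v with _ | _ | _ | _ | v <;> rcases i with _ | _ | _ | _ | i <;>
      simp only [arr, zero_add, Nat.reduceAdd] <;> omega
  top := fun i v hv => by
    obtain ⟨v, rfl⟩ : ∃ w, v = w + 4 := ⟨v - 4, by omega⟩
    rcases i with _ | _ | _ | _ | i <;> rfl
  col := fun i v => by
    have h0 := hR 4 le_rfl
    rcases v with _ | _ | _ | _ | v
    · rcases i with _ | _ | _ | _ | i <;> simp only [arr, zero_add, Nat.reduceAdd] <;> omega
    · rcases i with _ | _ | _ | _ | i <;> simp only [arr, zero_add, Nat.reduceAdd] <;> omega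
    · rcases i with _ | _ | _ | _ | i <;> simp only [arr, zero_add, Nat.reduceAdd] <;> omega
    · rcases i with _ | _ | _ | _ | i
      · simp only [arr, zero_add, Nat.reduceAdd]
        omega
      · simp only [arr, zero_add, Nat.reduceAdd]
        omega
      · simp only [arr, zero_add, Nat.reduceAdd]
        omega
      · simp only [arr, zero_add, Nat.reduceAdd]
        omega
      · simp only [arr, zero_add, Nat.reduceAdd]
        rw [hR _ (by omega)]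
    · exact hL i
  cont := fun v => by
    rcases v with _ | _ | _ | _ | v
    · simp [arr]
    · simp [arr, Finset.sum_range_succ]
    · simp only [Finset.sum_range_succ, Finset.sum_range_zero, arr]
      omega
    · simp only [Finset.sum_range_succ, Finset.sum_range_zero, arr]
      omega
    · have hs : ∑ u ∈ range (v + 1 + 1 + 1 + 1), mu u = ∑ u ∈ range 4, mu u := by
        symm
        apply Finset.sum_subset (Finset.range_mono (by omega))
        intro u _ hu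
        rw [Finset.mem_range, not_lt] at hu
        exact hmu u hu
      rw [hs]
      simp only [Finset.sum_range_succ, Finset.sum_range_zero, arr]
      omega

/-- Tableaux with four letters are in bijection with the integer points of the polytope. -/
theorem card_Tab4 (hD : Shape D L) (hR : ∀ i, 4 ≤ i → L i = 0) (hL : ∀ i, L (i + 1) ≤ L i)
    (hmu : ∀ v, 4 ≤ v → mu v = 0)
    (hsum : L 0 + L 1 + L 2 + L 3 = mu 0 + mu 1 + mu 2 + mu 3) :
    Nat.card (Tab D mu) =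
      Nat.card (Patt (L 0) (L 1) (L 2) (L 3) (mu 0 + mu 1 + mu 2) (mu 0 + mu 1) (mu 0)) := by
  refine Nat.card_congr (Equiv.ofBijective
    (fun T => ⟨(((cnt L T.1 1 3 : ℕ) : ℤ), ((cnt L T.1 0 3 : ℕ) : ℤ), ((cnt L T.1 0 2 : ℕ) : ℤ)),
      gt_patt (isGT_cnt hD hR hmu T.1 T.2)⟩) ⟨?_, ?_⟩)
  · intro T T' h
    have h0 := congrArg Subtype.val h
    simp only [Prod.mk.injEq, Nat.cast_inj] at h0
    exact Subtype.ext (tab_ext hD T.1 T'.1 (gt_ext (isGT_cnt hD hR hmu T.1 T.2)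
      (isGT_cnt hD hR hmu T'.1 T'.2) h0.1 h0.2.1 h0.2.2))
  · rintro ⟨⟨b, a, d⟩, hx⟩
    simp only [Patt, Set.mem_ofPred_eq] at hx
    obtain ⟨h1, h2, h3, h4, h5, h6, h7, h8, h9, h10, h11, h12⟩ := hx
    lift a to ℕ using by omega
    lift b to ℕ using by omega
    lift d to ℕ using by omega
    have hG := arr_isGT (a := a) (b := b) (c := mu 0 + mu 1 + mu 2 - a - b) (d := d)
      (e := mu 0 + mu 1 - d) hmu hR hL hsum (by omega) (by omega) (by omega) (by omega) (by omega)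
      (by omega) (by omega) (by omega) (by omega) (by omega) (by omega) (by omega) (by omega)
      (by omega)
    obtain ⟨T, hT, hc⟩ := exists_tab hD hR hG
    refine ⟨⟨T, hT⟩, Subtype.ext ?_⟩
    simp only [hc]
    rfl

end

end Pool.Agent.Work.MP_0df73a_co.Four
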